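import Pool.Agent.Helper730.VarMinNil

set_option autoImplicit false

namespace Pool.Agent.Results.MP_c8c516_al.LocallyNilpotent

open Pool.Agent.Helper730.VM

/-- Let `N` be a fully invariant subgroup of the free group of countable rank such that every
finitely generated group satisfying all laws in `N` is nilpotent (a variety of locally nilpotent
groups). If there are only countably many fully invariant subgroups above `N` (countably many
subvarieties), then there is no infinite strictly increasing chain of them (no infinite properly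
descending chain of subvarieties). -/
theorem result :
    ∀ N : Subgroup (FreeGroup ℕ),
      (∀ φ : FreeGroup ℕ →* FreeGroup ℕ, ∀ x ∈ N, φ x ∈ N) →
      (∀ (G : Type) [Group G], Group.FG G →
        (∀ w ∈ N, ∀ φ : FreeGroup ℕ →* G, φ w = 1) → Group.IsNilpotent G) →
      {M : Subgroup (FreeGroup ℕ) |
          (∀ φ : FreeGroup ℕ →* FreeGroup ℕ, ∀ x ∈ M, φ x ∈ M) ∧ N ≤ M}.Countable →
      ¬ ∃ f : ℕ → Subgroup (FreeGroup ℕ), StrictMono f ∧
        ∀ n, N ≤ f n ∧ (∀ φ : FreeGroup ℕ →* FreeGroup ℕ, ∀ x ∈ f n, φ x ∈ f n) := by
  intro N hN hnil hc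
  apply min_of_local _ (noInd_of_count hc)
  intro m
  obtain ⟨G, _, hfg, hG, hl⟩ := exists_rel (classOf_isVariety N) m
  rw [lawsOf_classOf hN] at hl
  have h1 := (minCond_iff (varOf_isVariety G)).1
    (minCond_varOf_nilpotent (hnil G hfg fun w hw => hG w hw))
  rwa [hl] at h1

end Pool.Agent.Results.MP_c8c516_al.LocallyNilpotent
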